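import Pool.Agent.MWLE.StmtsA

/-!
# Squad MWLE, row DDC (MP_23468a_al): doubled letters
-/

set_option autoImplicit false

namespace Pool.Agent.MWLE.H77

open Pool.Agent.Helper14_MV Pool.Agent.Helper2_MV
open Pool.Agent.MWF (Ap gaml dbl)
open Pool.Agent.MWGN (nn Gz E0 P0 A0 Tau gh)
open Pool.Agent.MWLE

/-- substitution `0 ↦ a`, `1 ↦ b` -/
def s2 (a b : List ℕ) (n : ℕ) : List ℕ := if n = 0 then a else b

theorem ctx {β : FIC} (P Q : List ℕ) {x y : List ℕ} (h : RR β x y) :
    RR β (P ++ (x ++ Q)) (P ++ (y ++ Q)) :=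
  (RR.refl P).append (h.append (RR.refl Q))

theorem ddc1 {β : FIC} (hG : Gz β) (u X B : List ℕ) : ∀ A : List ℕ,
    RR β (A ++ (dbl u ++ (X ++ (X ++ B)))) (A ++ (X ++ (X ++ (dbl u ++ B)))) := by
  induction u with
  | nil =>
    intro A
    exact RR.refl _
  | cons c u ih =>
    intro A
    have e : dbl (c :: u) = [c, c] ++ dbl u := rfl
    rw [e]
    have h1 := ih (A ++ [c, c])
    have h2 : RR β ([c, c] ++ (X ++ X)) (X ++ (X ++ [c, c])) := by
      have h3 := RR.sub (s2 [c] X) hG.c
      have e1 : ([0, 0, 1, 1] : List ℕ).flatMap (s2 [c] X) = [c, c] ++ (X ++ X) := by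
        simp [s2]
      have e2 : ([1, 1, 0, 0] : List ℕ).flatMap (s2 [c] X) = X ++ (X ++ [c, c]) := by
        simp [s2]
      rw [e1, e2] at h3
      exact h3
    have h4 := ctx A (dbl u ++ B) h2
    simp only [List.append_assoc] at h1 h4 ⊢
    exact β.trans h1 h4

theorem ddc : DdcStmt := by
  intro β hG u X A B
  refine ⟨ddc1 hG u X B A, ?_, ?_⟩
  · induction u generalizing A with
    | nil => exact RR.refl _
    | cons c u ih =>
      have e : dbl (c :: u) = [c, c] ++ dbl u := rfl
      rw [e]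
      have h1 : RR β [c, c] [c, c, c, c] := by
        have h2 := RR.sub (s2 [c] []) hG.gw.ap.sq
        have e1 : ([0, 0] : List ℕ).flatMap (s2 [c] []) = [c, c] := by
          simp [s2]
        have e2 : ([0, 0, 0] : List ℕ).flatMap (s2 [c] []) = [c, c, c] := by
          simp [s2]
        rw [e1, e2] at h2
        exact β.trans h2 (h2.append (RR.refl [c]))
      have h2 := ctx A (dbl u ++ B) h1
      have h3 := ih (A ++ [c, c, c, c])
      have h4 := (ddc1 hG u [c] (dbl u ++ B) (A ++ [c, c])).symm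
      have e1 : A ++ [c, c] ++ ([c] ++ ([c] ++ (dbl u ++ (dbl u ++ B)))) =
          A ++ [c, c, c, c] ++ (dbl u ++ (dbl u ++ B)) := by simp
      have e2 : A ++ [c, c] ++ (dbl u ++ ([c] ++ ([c] ++ (dbl u ++ B)))) =
          A ++ ([c, c] ++ dbl u ++ ([c, c] ++ dbl u ++ B)) := by simp
      rw [e1, e2] at h4
      simp only [List.append_assoc] at h2 h3 h4 ⊢
      exact β.trans (β.trans h2 h3) h4
  · induction u generalizing A with
    | nil =>
      intro _
      exact RR.refl _
    | cons c u ih =>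
      intro hc
      have e : dbl (c :: u) = [c, c] ++ dbl u := rfl
      rw [e]
      obtain ⟨A1, A2, hA⟩ := List.append_of_mem (hc c (by simp))
      have h1 : RR β (c :: (A2 ++ [c])) (c :: (A2 ++ [c, c])) := by
        have h2 := RR.sub (s2 [c] A2) hG.gw.gm
        have e1 : ([0, 1, 0] : List ℕ).flatMap (s2 [c] A2) = c :: (A2 ++ [c]) := by
          simp [s2]
        have e2 : ([0, 1, 0, 0] : List ℕ).flatMap (s2 [c] A2) = c :: (A2 ++ [c, c]) := by
          simp [s2]
        rw [e1, e2] at h2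
        exact h2
      have h2 := ctx A1 (u ++ B) h1
      have e1 : A1 ++ (c :: (A2 ++ [c]) ++ (u ++ B)) = A ++ (c :: u ++ B) := by
        rw [hA]
        simp
      have e2 : A1 ++ (c :: (A2 ++ [c, c]) ++ (u ++ B)) = (A ++ [c, c]) ++ (u ++ B) := by
        rw [hA]
        simp
      rw [e1, e2] at h2
      have h3 := ih (A ++ [c, c]) (by
        intro x hx
        exact List.mem_append_left _ (hc x (List.mem_cons_of_mem _ hx)))
      simp only [List.append_assoc] at h2 h3 ⊢
      exact β.trans h2 h3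

end Pool.Agent.MWLE.H77
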